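import Pool.Agent.L0h74.GF.Lf
import Pool.Agent.L0h74.AP.Dnt

/-!
# Families of twists of `X_0(49)` with local conditions
-/

set_option autoImplicit false
set_option maxHeartbeats 4000000
set_option linter.unusedSectionVars false
set_option linter.unusedVariables false

open scoped Classical

namespace Pool.Agent.L0h74.GF

open Filter Topology
open Pool.Agent.L0h74.AP
open Pool.Agent.L0h74.EV (QPw CritA NSA qpw_of critA_iff)
open Pool.Agent.L0h4.TA (exists_w)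
open Pool.Agent.L0h1.EV (TT tt_iff rank_all7)
open Pool.Agent.Y703.CQ (c2)

/-- the condition -/
def Loc (d e₀ : ℤ) (S : Finset ℕ) (inf : Prop) (e : ℤ) : Prop :=
  RootPlus (e * d) ∧ (∀ p ∈ S, ∀ _ : Fact p.Prime, IsSquare (((e * e₀ : ℤ) : ℤ) : ℚ_[p])) ∧
    (inf → 0 < e * e₀)

variable {Qf Pf : ℕ → Finset ℕ} {w : ℕ → Pool.Agent.Y698.RR}

theorem Dn_mem (n : ℤ) : Squarefree (Dn n) ∧ ¬ 7 ∣ Dn n := ⟨Dn_sq n, Dn_seven n⟩

theorem dens (h : QPw Qf Pf w) {d : ℤ} (hd : d ≠ 0) {S : Finset ℕ} (hS : ∀ p ∈ S, p.Prime) (inf : Prop) {e₀ : ℤ}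
    (he₀ : Squarefree e₀) (h₀ : RootPlus (e₀ * d)) :
    Tendsto (fun X : ℕ => ((cnt cnd (fun e => Loc d e₀ S inf e ∧ TT (Dn (e * d))) X : ℕ) : ℝ) /
      ((cnt cnd (Loc d e₀ S inf) X : ℕ) : ℝ)) atTop (𝓝 (c2 / 2)) := by
  set u : ℕ := 56 * ((∏ p ∈ S, p) * d.natAbs) with hu
  have hP0 : 0 < ∏ p ∈ S, p := Finset.prod_pos fun p hp => (hS p hp).pos
  have hd0 : 0 < d.natAbs := Int.natAbs_pos.2 hd
  have hu0 : 0 < u := by positivity
  have h56 : 56 ∣ u := Dvd.intro _ rfl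
  have h8 : 8 ∣ u := (by norm_num : 8 ∣ 56).trans h56
  have h4 : 4 ∣ u := (by norm_num : 4 ∣ 56).trans h56
  have h7 : 7 ∣ u := (by norm_num : 7 ∣ 56).trans h56
  have hpu : ∀ p ∈ S, p ∣ u := fun p hp =>
    Dvd.dvd.mul_left (Dvd.dvd.mul_right (Finset.dvd_prod_of_mem (fun q : ℕ => q) hp) _) _
  have hdu : ∀ p, p.Prime → p ∣ d.natAbs → p ∣ u := fun p _ hp =>
    Dvd.dvd.mul_left (Dvd.dvd.mul_left hp _) _
  have hT : ClassFn u (Loc d e₀ S inf) := by
    have h1 : ClassFn u fun e => ∀ p ∈ S, ∀ _ : Fact p.Prime,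
        IsSquare (((e * e₀ : ℤ) : ℤ) : ℚ_[p]) :=
      ClassFn.all fun p => ClassFn.all fun hp => ClassFn.all fun hf =>
        classFn_loc (hp := hf) hu0 h8 p (hpu p hp) e₀
    have h2 : ClassFn u fun e => inf → 0 < e * e₀ := (classFn_const inf).imp (classFn_sign hu0 e₀)
    exact (classFn_root hu0 h7 hd).and (h1.and h2)
  have hT0 : Loc d e₀ S inf e₀ := by
    refine ⟨h₀, fun p _ _ => ⟨(e₀ : ℚ_[p]), by push_cast; ring⟩, fun _ => ?_⟩
    exact mul_self_pos.2 he₀.ne_zero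
  have key := main h h56 hu0 hd hdu (cnd_ht h4) hT he₀ hT0
  refine key.congr fun X => ?_
  have e1 : (fun e => Loc d e₀ S inf e ∧ NSA Qf Pf w (Dn (e * d))) =
      fun e => Loc d e₀ S inf e ∧ TT (Dn (e * d)) := by
    funext e
    refine propext (and_congr_right fun _ => ?_)
    rw [← critA_iff h (Dn_mem _).1 (Dn_mem _).2]
    exact (tt_iff h (Dn_mem _).1 (Dn_mem _).2).symm
  rw [e1]

/-- the number of the elements of a set of squarefree integers with bounded conductor -/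
theorem cnt_ncard (T : ℤ → Prop) (X : ℕ) :
    cnt cnd T X = {e : ℤ | Squarefree e ∧ T e ∧ cnd e ≤ X}.ncard := by
  unfold cnt
  rw [← Set.ncard_coe_finset]
  congr 1
  ext e
  simp only [Finset.coe_filter, Finset.mem_Icc, Set.mem_ofPred_eq]
  constructor
  · rintro ⟨-, h1, h2, h3⟩
    exact ⟨h1, h3, h2⟩
  · rintro ⟨h1, h3, h2⟩
    refine ⟨?_, h1, h2, h3⟩
    unfold cnd at h2
    have : e.natAbs ≤ X := by
      split_ifs at h2
      · exact h2
      · omega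
    omega

/-- scaling of the points -/
theorem fin_scale {m t : ℤ} (ht : t ≠ 0)
    (h : {q : ℚ × ℚ | q.2 ^ 2 = q.1 ^ 3 - 35 * (m : ℚ) ^ 2 * q.1 - 98 * (m : ℚ) ^ 3}.Finite) :
    {q : ℚ × ℚ | q.2 ^ 2 = q.1 ^ 3 - 35 * ((m * t ^ 2 : ℤ) : ℚ) ^ 2 * q.1 -
      98 * ((m * t ^ 2 : ℤ) : ℚ) ^ 3}.Finite := by
  have ht' : (t : ℚ) ≠ 0 := by exact_mod_cast ht
  refine Set.Finite.of_finite_image (f := fun q : ℚ × ℚ => (q.1 / (t : ℚ) ^ 2, q.2 / (t : ℚ) ^ 3))
    (h.subset ?_) ?_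
  · rintro _ ⟨⟨x, y⟩, hq, rfl⟩
    simp only [Set.mem_ofPred_eq] at hq ⊢
    push_cast at hq
    field_simp
    linear_combination hq
  · rintro ⟨x, y⟩ _ ⟨x', y'⟩ _ h1
    simp only [Prod.mk.injEq] at h1
    have h2 := h1.1
    have h3 := h1.2
    have e1 : x = x' := by
      have := congrArg (· * (t : ℚ) ^ 2) h2
      simpa [div_mul_cancel₀, pow_ne_zero, ht'] using this
    have e2 : y = y' := by
      have := congrArg (· * (t : ℚ) ^ 3) h3
      simpa [div_mul_cancel₀, pow_ne_zero, ht'] using this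
    rw [e1, e2]

/-- the good twists -/
theorem good (h : QPw Qf Pf w) {D : ℕ} (hsf : Squarefree D) (h7 : ¬ 7 ∣ D) (hT : TT D) {m : ℤ}
    (hm : m = D ∨ m = -7 * D) :
    (∃ F : ℂ → ℂ, Differentiable ℂ F ∧
      (∀ s : ℂ, (3 : ℝ) / 2 < s.re → HasProd (fun p : Nat.Primes => lf m s p) (F s)) ∧ F 1 ≠ 0) ∧
    {q : ℚ × ℚ | q.2 ^ 2 = q.1 ^ 3 - 35 * (m : ℚ) ^ 2 * q.1 - 98 * (m : ℚ) ^ 3}.Finite := by
  have hC := (tt_iff h hsf h7).1 hT
  have hD0 : (D : ℤ) ≠ 0 := by exact_mod_cast hsf.ne_zero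
  have hm0 : m ≠ 0 := by
    rcases hm with rfl | rfl
    · exact hD0
    · exact mul_ne_zero (by norm_num) hD0
  constructor
  · obtain ⟨F, h1, h2, h3⟩ := lcomp h hsf h7 hC
    refine ⟨F, h1, fun s hs => ?_, h3⟩
    rcases hm with rfl | rfl
    · exact h2 s hs
    · refine (congrArg (fun g => HasProd g (F s)) (funext fun p : Nat.Primes => ?_)).mp (h2 s hs)
      exact (lf_seven (D : ℤ) s p.2).symm
  · obtain ⟨-, -, -, -, h4⟩ := rank_all7 h hsf h7 hC hm
    have h5 := Pool.Agent.L0h1.EV.set_of_pt (a := -35 * m ^ 2) (b := -98 * m ^ 3) (by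
      have e : (4 * (-35 * m ^ 2) ^ 3 + 27 * (-98 * m ^ 3) ^ 2 : ℤ) = 87808 * m ^ 6 := by ring
      rw [e]
      exact mul_ne_zero (by norm_num) (pow_ne_zero _ hm0)) h4
    refine h5.subset ?_
    rintro ⟨x, y⟩ hq
    have hq' : y ^ 2 = x ^ 3 - 35 * (m : ℚ) ^ 2 * x - 98 * (m : ℚ) ^ 3 := hq
    show y ^ 2 = x ^ 3 + ((-35 * m ^ 2 : ℤ) : ℚ) * x + ((-98 * m ^ 3 : ℤ) : ℚ)
    push_cast
    linear_combination hq'

/-- the square-free part prime to `7` is determined -/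
theorem Dn_unique {D : ℕ} (hsf : Squarefree D) (h7 : ¬ 7 ∣ D) {n t : ℤ} (ht : t ≠ 0)
    (hn : n = D * t ^ 2 ∨ n = -7 * D * t ^ 2) : Dn n = D := by
  have h7p : Nat.Prime 7 := by norm_num
  have hD0 := hsf.ne_zero
  have ht0 : t.natAbs ≠ 0 := Int.natAbs_ne_zero.2 ht
  have hn0 : n.natAbs = D * t.natAbs ^ 2 ∨ n.natAbs = 7 * D * t.natAbs ^ 2 := by
    rcases hn with rfl | rfl
    · left
      rw [Int.natAbs_mul, Int.natAbs_pow, Int.natAbs_natCast]
    · right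
      rw [Int.natAbs_mul, Int.natAbs_mul, Int.natAbs_pow, Int.natAbs_natCast]
      rfl
  have hfac : ∀ p, p ≠ 7 → n.natAbs.factorization p = D.factorization p + 2 * t.natAbs.factorization p := by
    intro p hp
    rcases hn0 with h | h
    · rw [h, Nat.factorization_mul hD0 (pow_ne_zero 2 ht0), Nat.factorization_pow]
      simp
    · rw [h, Nat.factorization_mul (mul_ne_zero (by norm_num) hD0) (pow_ne_zero 2 ht0),
        Nat.factorization_mul (by norm_num) hD0, Nat.factorization_pow, h7p.factorization]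
      simp only [Finsupp.coe_add, Finsupp.coe_smul, Pi.add_apply, Pi.smul_apply, smul_eq_mul]
      rw [Finsupp.single_eq_of_ne hp]
      ring
  have hD1 : ∀ p, D.factorization p ≤ 1 := fun p => hsf.natFactorization_le_one p
  have hna0 : n.natAbs ≠ 0 := by
    rcases hn0 with h | h
    · rw [h]
      exact mul_ne_zero hD0 (pow_ne_zero 2 ht0)
    · rw [h]
      exact mul_ne_zero (mul_ne_zero (by norm_num) hD0) (pow_ne_zero 2 ht0)
  have hset : Ds n = D.primeFactors := by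
    ext p
    rw [Ds, Finset.mem_filter, Nat.mem_primeFactors, Nat.mem_primeFactors]
    constructor
    · rintro ⟨⟨h1, h2, h3⟩, h4, h5⟩
      refine ⟨h1, ?_, hD0⟩
      rw [hfac p h4] at h5
      rw [h1.dvd_iff_one_le_factorization hD0]
      have := hD1 p
      omega
    · rintro ⟨h1, h2, h3⟩
      have hp7 : p ≠ 7 := by
        rintro rfl
        exact h7 h2
      have h4 : D.factorization p = 1 := by
        have h5 := (h1.dvd_iff_one_le_factorization hD0).1 h2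
        have := hD1 p
        omega
      refine ⟨⟨h1, ?_, hna0⟩, hp7, by rw [hfac p hp7]; omega⟩
      rw [h1.dvd_iff_one_le_factorization hna0, hfac p hp7]
      omega
  unfold Dn
  rw [hset]
  exact Nat.prod_primeFactors_of_squarefree hsf

end Pool.Agent.L0h74.GF
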