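import Pool.Agent.L0h1.EV.All7

/-!
# The complete `L`-functions of the twists of `X_0(49)`
-/

set_option autoImplicit false
set_option maxHeartbeats 4000000
set_option linter.unusedSectionVars false
set_option linter.unusedVariables false

open scoped Classical

namespace Pool.Agent.L0h74.GF

open Pool.Agent.Y698 Pool.Agent.Y698.SG Pool.Agent.L0h4.TW Pool.Agent.L0h23.EV
open Pool.Agent.L0h75.EV Pool.Agent.L0h1.KD Pool.Agent.L0h1.EV
open Pool.Agent.L0h74.EV (QPw CritA qpw_of)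
open Pool.Agent.L0h4.TA (mD ns_iff exists_w)
open Pool.Agent.L0h4.TA

/-- the value at the prime `p` of the primitive quadratic character of the field `ℚ(√m)`, for
squarefree `m` -/
def kr (m : ℤ) (p : ℕ) : ℤ :=
  if p = 2 then (if m % 8 = 1 then 1 else if m % 8 = 5 then -1 else 0) else jacobiSym m p

/-- the trace of Frobenius of `X_0(49)` -/
noncomputable def ap (p : ℕ) : ℤ :=
  (p : ℤ) - Nat.card {q : ZMod p × ZMod p //
    q.2 ^ 2 + q.1 * q.2 = q.1 ^ 3 - q.1 ^ 2 - 2 * q.1 - 1}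

/-- the Euler factor, centre `1` -/
noncomputable def lf (m : ℤ) (s : ℂ) (p : ℕ) : ℂ :=
  if p = 7 then 1 else
    (1 - (ap p : ℂ) * (kr m p : ℂ) * (p : ℂ) ^ (-s) + (kr m p : ℂ) ^ 2 * (p : ℂ) ^ (1 - 2 * s))⁻¹

lemma ap_bc {p : ℕ} (hp : p.Prime) (h7 : p ≠ 7) : (ap p : ℂ) = bc p := by
  have _ : Fact p.Prime := ⟨hp⟩
  have ht := trace_twX (ZMod p) hp h7 one_ne_zero (by rw [Nat.card_zmod, pow_one]) (S := ∅)
    (fun q hq => absurd hq (Finset.notMem_empty q)) (Finset.notMem_empty p) (j := 0) (by simp)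
  rw [Finset.prod_empty, one_pow, one_mul] at ht
  have hpw : W165.CE.pw (bc p) (ec p) 1 = bc p := rfl
  rw [hpw] at ht
  rw [← ht]
  unfold ap
  congr 2
  · rw [Nat.card_zmod]
  · congr 1
    refine Nat.card_congr (Equiv.subtypeEquivRight fun q => ?_)
    rw [WeierstrassCurve.Affine.equation_iff]
    unfold EX
    simp only [Nat.cast_zero]
    constructor
    · intro h
      linear_combination h
    · intro h
      linear_combination h

lemma kr_odd {m : ℤ} {p : ℕ} (h : p ≠ 2) : kr m p = jacobiSym m p := if_neg h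

lemma ec_eq {p : ℕ} (h : p ≠ 7) : ec p = p := if_neg h

lemma fac_eq {p : ℕ} (hp : p.Prime) (m : ℤ) (s x : ℂ) (hx : p ≠ 7 → x = (kr m p : ℂ)) :
    (1 - bc p * (x * (p : ℂ) ^ (-s)) + ec p * (x * (p : ℂ) ^ (-s)) ^ 2)⁻¹ = lf m s p := by
  unfold lf
  by_cases h7 : p = 7
  · subst h7
    have hb7 : bc 7 = 0 := by
      have := bc_seven 0
      simpa using this
    have he7 : ec 7 = 0 := by unfold ec; exact if_pos rfl
    rw [hb7, he7, if_pos rfl]
    simp
  · rw [if_neg h7, hx h7, ap_bc hp h7, ec_eq h7]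
    have h9 : (p : ℂ) ^ (1 - 2 * s) = (p : ℂ) * ((p : ℂ) ^ (-s)) ^ 2 := by
      have hp0 : (p : ℂ) ≠ 0 := by exact_mod_cast hp.ne_zero
      rw [← Complex.cpow_nat_mul, sub_eq_add_neg, Complex.cpow_add _ _ hp0, Complex.cpow_one]
      congr 2
      push_cast
      ring
    rw [h9]
    congr 1
    ring

lemma kr_ch {D : ℕ} (h : D % 4 = 3 ∨ D % 4 = 2) (p : ℕ) : ch D p = (kr (D : ℤ) p : ℂ) := by
  unfold ch kr
  by_cases h2 : p = 2
  · rw [if_pos h2, if_pos h2, if_neg (by omega), if_neg (by omega), Int.cast_zero]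
  · rw [if_neg h2, if_neg h2]

lemma kr_prod {D : ℕ} (hsf : Squarefree D) (h4 : D % 4 = 1) {S : Finset ℕ} (hS : ∏ q ∈ S, q = D)
    {p : ℕ} (hp : p.Prime) : ∏ q ∈ S, qch q (p : ℤ) = (kr (D : ℤ) p : ℂ) := by
  have h0 : ∀ q ∈ S, q ≠ 0 := by
    have := hsf.ne_zero
    rw [← hS, Finset.prod_ne_zero_iff] at this
    exact this
  rw [prod_qch h0, hS]
  congr 1
  unfold kr
  by_cases h2 : p = 2
  · subst h2
    rw [if_pos rfl]
    have hodd : Odd D := Nat.odd_iff.2 (by omega)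
    have h1 : jacobiSym ((2 : ℕ) : ℤ) D = jacobiSym 2 D := rfl
    rw [h1, jacobiSym.at_two hodd, ZMod.χ₈_nat_eq_if_mod_eight, if_neg (by omega)]
    by_cases h8 : D % 8 = 1
    · rw [if_pos (by omega), if_pos (by omega)]
    · rw [if_neg (by omega), if_neg (by omega), if_pos (by omega)]
  · rw [if_neg h2]
    have hp1 : p % 2 = 1 := Nat.odd_iff.1 (hp.odd_of_ne_two h2)
    exact (rec1 h4 hp1).symm

variable {Qf Pf : ℕ → Finset ℕ} {w : ℕ → RR}

/-- the complete `L`-function -/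
theorem lcomp (h : QPw Qf Pf w) {D : ℕ} (hsf : Squarefree D) (h7 : ¬ 7 ∣ D)
    (hC : CritA Qf Pf w D) :
    ∃ F : ℂ → ℂ, Differentiable ℂ F ∧
      (∀ s : ℂ, (3 : ℝ) / 2 < s.re → HasProd (fun p : Nat.Primes => lf (D : ℤ) s p) (F s)) ∧
      F 1 ≠ 0 := by
  rcases hC with ⟨h4, hC⟩ | ⟨h4, hC⟩ | ⟨h4, hC⟩
  · have hd := h.dt (D := D) (by omega) h7
    obtain ⟨j, hj⟩ : ∃ j, D = 1 + 4 * j := ⟨D / 4, by omega⟩
    have hA : Pool.Agent.L0h4.TA.Adm D := ⟨hsf, h4, h7⟩
    obtain ⟨f, h1, h2, h3⟩ := main_val hA hj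
    refine ⟨f, h1, fun s hs => ?_, h3 ((ns_iff hd (h.prod hsf).symm).1 hC)⟩
    refine (congrArg (fun g => HasProd g (f s)) (funext fun p : Nat.Primes => ?_)).mp
      (h2 s (by exact_mod_cast hs))
    exact fac_eq p.2 _ _ _ fun _ => kr_prod hsf h4 hA.prod p.2
  · have hd := h.dt (D := D) (by omega) h7
    obtain ⟨F, h1, h2, h3⟩ := nz3 hd (h.prod hsf) h4
    refine ⟨F, h1, fun s hs => ?_, h3 hC⟩
    refine (congrArg (fun g => HasProd g (F s)) (funext fun p : Nat.Primes => ?_)).mp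
      (h2 s (by exact_mod_cast hs))
    exact fac_eq p.2 _ _ _ fun _ => kr_ch (Or.inl h4) p
  · have eD : D = 2 * (D / 2) := by omega
    have hsf2 : Squarefree (D / 2) := by
      have := hsf
      rw [eD] at this
      exact Squarefree.squarefree_of_dvd (Dvd.intro_left _ rfl) this
    have hD4 : D % 4 ≠ 0 := by
      intro h4
      have h5 : 2 * 2 ∣ D := by omega
      exact absurd (hsf 2 h5) (by rw [Nat.isUnit_iff]; norm_num)
    have h7' : ¬ 7 ∣ D / 2 := fun h' => h7 (by rw [eD]; exact Dvd.dvd.mul_left h' 2)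
    have hd := h.dt (D := D / 2) (by omega) h7'
    have hP := h.prod hsf2
    obtain ⟨F, h1, h2, h3⟩ := nzE hd hP eD
    refine ⟨F, h1, fun s hs => ?_, h3 hC⟩
    refine (congrArg (fun g => HasProd g (F s)) (funext fun p : Nat.Primes => ?_)).mp
      (h2 s (by exact_mod_cast hs))
    exact fac_eq p.2 _ _ _ fun _ => kr_ch (Or.inr (by omega)) p

/-! ### the twist by `-7` -/

lemma ap_kr7 {p : ℕ} (hp : p.Prime) (h7 : p ≠ 7) (x : ℤ) :
    ap p * (kr (-7) p * x) = ap p * x := by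
  by_cases h2 : p = 2
  · subst h2
    have : kr (-7) 2 = 1 := by decide
    rw [this, one_mul]
  · rw [kr_odd h2]
    have hcop : ((-7 : ℤ)).gcd p = 1 := by
      have h1 : Nat.Coprime 7 p := (Nat.coprime_primes (by norm_num) hp).2 (Ne.symm h7)
      exact h1
    rcases jacobiSym.eq_one_or_neg_one hcop with h | h
    · rw [h, one_mul]
    · have hap : ap p = 0 := by
        have hns : ¬ IsSquare (-7 : ZMod p) := by
          intro hs
          have _ : Fact p.Prime := ⟨hp⟩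
          have h0 : ((-7 : ℤ) : ZMod p) ≠ 0 := by
            intro h0
            rw [ZMod.intCast_zmod_eq_zero_iff_dvd] at h0
            have h1 : p ∣ 7 := by
              have := Int.natAbs_dvd_natAbs.2 h0
              simpa using this
            exact h7 ((Nat.prime_dvd_prime_iff_eq hp (by norm_num)).1 h1)
          have h3 := (legendreSym.eq_one_iff p h0).2 (by push_cast; exact hs)
          rw [jacobiSym.legendreSym.to_jacobiSym] at h3
          omega
        have hb := (bc_inert (irr_inert hp hns) hp).1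
        have h4 := ap_bc hp h7
        rw [hb] at h4
        exact_mod_cast h4
      rw [hap]
      ring

lemma kr7_sq {p : ℕ} (hp : p.Prime) (h7 : p ≠ 7) : kr (-7) p ^ 2 = 1 := by
  by_cases h2 : p = 2
  · subst h2
    decide
  · rw [kr_odd h2]
    exact jacobiSym.sq_one ((Nat.coprime_primes (by norm_num) hp).2 (Ne.symm h7))

lemma kr_mul7 (m : ℤ) {p : ℕ} (hp : p.Prime) : kr (-7 * m) p = kr (-7) p * kr m p := by
  by_cases h2 : p = 2
  · subst h2
    have : kr (-7) 2 = 1 := by decide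
    rw [this, one_mul]
    unfold kr
    rw [if_pos rfl, if_pos rfl]
    have : (-7 * m) % 8 = m % 8 := by omega
    rw [this]
  · rw [kr_odd h2, kr_odd h2, kr_odd h2, jacobiSym.mul_left]

theorem lf_seven (m : ℤ) (s : ℂ) {p : ℕ} (hp : p.Prime) : lf (-7 * m) s p = lf m s p := by
  unfold lf
  by_cases h7 : p = 7
  · rw [if_pos h7, if_pos h7]
  · rw [if_neg h7, if_neg h7, kr_mul7 m hp]
    have h1 : (ap p : ℂ) * ((kr (-7) p * kr m p : ℤ) : ℂ) = (ap p : ℂ) * (kr m p : ℂ) := by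
      rw [← Int.cast_mul, ap_kr7 hp h7, Int.cast_mul]
    have h2 : ((kr (-7) p * kr m p : ℤ) : ℂ) ^ 2 = (kr m p : ℂ) ^ 2 := by
      have h3 := kr7_sq hp h7
      rw [← Int.cast_pow, mul_pow, h3, one_mul, Int.cast_pow]
    rw [h1, h2]

end Pool.Agent.L0h74.GF
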